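import Pool.Agent.H54.PM.Targets

set_option autoImplicit false

open Pool.Agent.H54.PM
open scoped symmDiff

namespace Pool.Agent.H86.PMF

variable {E G : Type} [NormedAddCommGroup E] [NormedSpace ℝ E] [NormedAddCommGroup G]
  [NormedSpace ℝ G]

/-- `L` is injective on the affine span. -/
lemma tr_injOn_span (L : E →L[ℝ] G) (S : Set E) (h : ∀ x ∈ vectorSpan ℝ S, L x = 0 → x = 0) :
    Set.InjOn L (affineSpan ℝ S : Set E) := by
  intro a ha b hb hab
  have h1 : a -ᵥ b ∈ (affineSpan ℝ S).direction := AffineSubspace.vsub_mem_direction ha hb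
  rw [direction_affineSpan] at h1
  have h2 : L (a - b) = 0 := by rw [map_sub, hab, sub_self]
  exact sub_eq_zero.1 (h _ h1 h2)

lemma tr_image_vectorSpan (L : E →L[ℝ] G) (S : Set E) :
    vectorSpan ℝ (L '' S) = (vectorSpan ℝ S).map (L : E →ₗ[ℝ] G) := by
  have h := AffineMap.map_vectorSpan ((L : E →ₗ[ℝ] G).toAffineMap) (s := S)
  rw [LinearMap.toAffineMap_linear] at h
  exact h.symm

lemma tr_image_affineSpan (L : E →L[ℝ] G) (S : Set E) :
    (affineSpan ℝ (L '' S) : Set G) = L '' (affineSpan ℝ S : Set E) := by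
  have h := AffineSubspace.map_span ((L : E →ₗ[ℝ] G).toAffineMap) S
  have h2 := congrArg (fun T : AffineSubspace ℝ G => (T : Set G)) h
  exact h2.symm

lemma tr_image_hull (L : E →L[ℝ] G) (S : Set E) :
    convexHull ℝ (L '' S) = L '' convexHull ℝ S :=
  ((L : E →ₗ[ℝ] G).image_convexHull S).symm

lemma tr_body_subset (A : Finset E) : body A ⊆ (affineSpan ℝ (A : Set E) : Set E) :=
  convexHull_subset_affineSpan _

lemma tr_subset_body (A : Finset E) : (A : Set E) ⊆ body A := subset_convexHull ℝ _

open Classical in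
lemma tr_body_image (L : E →L[ℝ] G) (A : Finset E) : body (A.image L) = L '' body A := by
  rw [body, body, Finset.coe_image, tr_image_hull]

lemma tr_finrank (L : E →L[ℝ] G) (V : Submodule ℝ E) (h : ∀ x ∈ V, L x = 0 → x = 0) :
    Module.finrank ℝ (V.map (L : E →ₗ[ℝ] G)) = Module.finrank ℝ V := by
  have hinj : Function.Injective ((L : E →ₗ[ℝ] G).domRestrict V) := by
    rw [← LinearMap.ker_eq_bot, LinearMap.ker_eq_bot']
    intro x hx
    exact Subtype.ext (h x.1 x.2 hx)
  have h1 := LinearMap.finrank_range_of_inj hinj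
  rw [← h1, LinearMap.range_domRestrict]

theorem pf_TR1 : T_TR1 := by
  classical
  intro E G _ _ _ _ _ L A hinj
  have hI := tr_injOn_span L (A : Set E) hinj
  have hbody : Set.InjOn L (body A) := hI.mono (tr_body_subset A)
  have hA : Set.InjOn L (A : Set E) := hbody.mono (tr_subset_body A)
  refine ⟨?_, tr_body_image L A, ?_⟩
  · intro k hk
    refine ⟨hk.three, ?_, ?_, ?_⟩
    · rw [Finset.card_image_of_injOn hA, hk.card]
    · rw [Finset.coe_image, tr_image_vectorSpan, tr_finrank L _ hinj, hk.plane]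
    · intro b hb hmem
      obtain ⟨a, ha, rfl⟩ := Finset.mem_image.1 hb
      have hsub : ((A.image L : Finset G) : Set G) \ {L a} ⊆ L '' ((A : Set E) \ {a}) := by
        rintro y ⟨hy, hya⟩
        rw [Finset.coe_image] at hy
        obtain ⟨c, hc, rfl⟩ := hy
        refine ⟨c, ⟨hc, ?_⟩, rfl⟩
        rintro rfl
        exact hya rfl
      have h1 := convexHull_mono hsub hmem
      rw [tr_image_hull] at h1
      obtain ⟨c, hc, hca⟩ := h1
      have hc' : c ∈ body A := convexHull_mono Set.sdiff_subset hc
      have : c = a := hbody hc' (tr_subset_body A ha) hca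
      rw [this] at hc
      exact hk.convex a ha hc
  · intro u hu v hv
    constructor
    · rintro ⟨-, -, hne, f, hf1, hf2⟩
      refine ⟨hu, hv, fun h => hne (by rw [h]), f.comp L, hf1, ?_⟩
      intro a ha hau hav
      exact hf2 (L a) (Finset.mem_image_of_mem _ ha) (fun h => hau (hA ha hu h))
        (fun h => hav (hA ha hv h))
    · rintro ⟨-, -, hne, f, hf1, hf2⟩
      set V : Submodule ℝ E := vectorSpan ℝ (A : Set E) with hV
      have hker : LinearMap.ker ((L : E →ₗ[ℝ] G).domRestrict V) = ⊥ := by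
        rw [LinearMap.ker_eq_bot']
        intro x hx
        exact Subtype.ext (hinj x.1 x.2 hx)
      obtain ⟨g0, hg0⟩ := LinearMap.exists_leftInverse_of_injective _ hker
      set g : G →ₗ[ℝ] ℝ := ((f : E →ₗ[ℝ] ℝ).comp V.subtype).comp g0 with hg
      have hgL : ∀ x ∈ V, g (L x) = f x := by
        intro x hx
        have h1 := LinearMap.congr_fun hg0 ⟨x, hx⟩
        have h2 : g0 (L x) = ⟨x, hx⟩ := h1
        rw [hg]
        change f (g0 (L x) : E) = f x
        rw [h2]
      have hdiff : ∀ a ∈ A, g (L a) - g (L u) = f a - f u := by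
        intro a ha
        have hmem : a -ᵥ u ∈ V := vsub_mem_vectorSpan ℝ ha hu
        rw [← map_sub, ← map_sub, ← map_sub]
        exact hgL _ hmem
      refine ⟨Finset.mem_image_of_mem _ hu, Finset.mem_image_of_mem _ hv,
        fun h => hne (hA hu hv h), LinearMap.toContinuousLinearMap g, ?_, ?_⟩
      · have h1 := hdiff v hv
        change g (L u) = g (L v)
        linarith
      · intro b hb hbu hbv
        obtain ⟨a, ha, rfl⟩ := Finset.mem_image.1 hb
        have h1 := hdiff a ha
        have h2 := hf2 a ha (fun h => hbu (by rw [h])) (fun h => hbv (by rw [h]))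
        change g (L a) < g (L u)
        linarith

end Pool.Agent.H86.PMF
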