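import Pool.Agent.H86.PMF.TR1

set_option autoImplicit false

open Pool.Agent.H54.PM
open scoped symmDiff

namespace Pool.Agent.H86.PMF

variable {E G : Type} [NormedAddCommGroup E] [NormedSpace ℝ E] [NormedAddCommGroup G]
  [NormedSpace ℝ G]

lemma tr_one (L : E →L[ℝ] G) (F : Finset (Finset E)) (h : Inj2 L F) (A : Finset E) (hA : A ∈ F) :
    ∀ x ∈ vectorSpan ℝ (A : Set E), L x = 0 → x = 0 := by
  intro x hx
  have h1 := h A hA A hA x
  rw [Set.union_self] at h1
  exact h1 hx

/-- `L` is injective on the affine span of the union. -/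
lemma tr_two (L : E →L[ℝ] G) (F : Finset (Finset E)) (h : Inj2 L F) (A B : Finset E) (hA : A ∈ F)
    (hB : B ∈ F) : Set.InjOn L (affineSpan ℝ ((A : Set E) ∪ (B : Set E)) : Set E) :=
  tr_injOn_span L _ (h A hA B hB)

lemma tr_left (A B : Finset E) :
    (affineSpan ℝ (A : Set E) : Set E) ⊆ (affineSpan ℝ ((A : Set E) ∪ (B : Set E)) : Set E) :=
  affineSpan_mono ℝ Set.subset_union_left

lemma tr_right (A B : Finset E) :
    (affineSpan ℝ (B : Set E) : Set E) ⊆ (affineSpan ℝ ((A : Set E) ∪ (B : Set E)) : Set E) :=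
  affineSpan_mono ℝ Set.subset_union_right

lemma tr_union (L : E →L[ℝ] G) (F : Finset (Finset E)) (h : Inj2 L F) (A B : Finset E) (hA : A ∈ F)
    (hB : B ∈ F) : Set.InjOn L (body A ∪ body B) :=
  (tr_two L F h A B hA hB).mono (Set.union_subset ((tr_body_subset A).trans (tr_left A B))
    ((tr_body_subset B).trans (tr_right A B)))

open Classical in
lemma tr_span_le (L : E →L[ℝ] G) (F : Finset (Finset E)) (h : Inj2 L F) (A B : Finset E)
    (hA : A ∈ F) (hB : B ∈ F)
    (hs : affineSpan ℝ ((A.image L : Finset G) : Set G) ≤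
      affineSpan ℝ ((B.image L : Finset G) : Set G)) :
    affineSpan ℝ (A : Set E) ≤ affineSpan ℝ (B : Set E) := by
  rw [affineSpan_le]
  intro a ha
  have h1 : L a ∈ (affineSpan ℝ ((B.image L : Finset G) : Set G) : Set G) := by
    apply hs
    apply subset_affineSpan
    rw [Finset.coe_image]
    exact ⟨a, ha, rfl⟩
  rw [Finset.coe_image, tr_image_affineSpan] at h1
  obtain ⟨c, hc, hca⟩ := h1
  have h2 : c = a := tr_two L F h A B hA hB (tr_right A B hc)
    (tr_left A B (subset_affineSpan ℝ _ ha)) hca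
  rw [← h2]
  exact hc

theorem pf_TR2 (h : T_TR1) : T_TR2 := by
  classical
  intro E G _ _ _ _ _ L F hL hF
  have hT := fun (A : Finset E) (hA : A ∈ F) => h E G L A (tr_one L F hL A hA)
  constructor
  · intro A' hA' B' hB' hne
    obtain ⟨A, hA, rfl⟩ := Finset.mem_image.1 hA'
    obtain ⟨B, hB, rfl⟩ := Finset.mem_image.1 hB'
    have hneAB : A ≠ B := fun he => hne (by rw [he])
    have hU := tr_union L F hL A B hA hB
    have hint : body (A.image L) ∩ body (B.image L) = L '' (body A ∩ body B) := by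
      rw [tr_body_image, tr_body_image, ← hU.image_inter Set.subset_union_left
        Set.subset_union_right]
    rw [hint]
    rcases hF.cplx A hA B hB hneAB with h1 | ⟨v, hv1, hv2, h1⟩ | ⟨u, v, hu, hv, h1⟩
    · left
      rw [h1, Set.image_empty]
    · right; left
      refine ⟨L v, Finset.mem_image_of_mem _ hv1, Finset.mem_image_of_mem _ hv2, ?_⟩
      rw [h1, Set.image_singleton]
    · right; right
      refine ⟨L u, L v, ?_, ?_, ?_⟩
      · exact ((hT A hA).2.2 u hu.1 v hu.2.1).2 hu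
      · exact ((hT B hB).2.2 u hv.1 v hv.2.1).2 hv
      · rw [h1]
        exact image_segment ℝ ((L : E →ₗ[ℝ] G).toAffineMap) u v
  · intro A' hA' B' hB' hne x y hx hy hsp
    obtain ⟨A, hA, rfl⟩ := Finset.mem_image.1 hA'
    obtain ⟨B, hB, rfl⟩ := Finset.mem_image.1 hB'
    have hneAB : A ≠ B := fun he => hne (by rw [he])
    have hU := tr_union L F hL A B hA hB
    obtain ⟨u, hu, rfl⟩ := Finset.mem_image.1 hx.1
    obtain ⟨v, hv, rfl⟩ := Finset.mem_image.1 hx.2.1
    obtain ⟨u', hu', hu2⟩ := Finset.mem_image.1 hy.1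
    obtain ⟨v', hv', hv2⟩ := Finset.mem_image.1 hy.2.1
    have e1 : u' = u := hU (Or.inr (tr_subset_body B hu')) (Or.inl (tr_subset_body A hu)) hu2
    have e2 : v' = v := hU (Or.inr (tr_subset_body B hv')) (Or.inl (tr_subset_body A hv)) hv2
    subst e1
    subst e2
    have E1 := ((hT A hA).2.2 u' hu v' hv).1 hx
    have E2 := ((hT B hB).2.2 u' hu' v' hv').1 hy
    apply hF.bend A hA B hB hneAB u' v' E1 E2
    exact le_antisymm (tr_span_le L F hL A B hA hB hsp.le) (tr_span_le L F hL B A hB hA hsp.ge)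

end Pool.Agent.H86.PMF
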