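import Pool.Agent.H86.PMF.TR2

set_option autoImplicit false

open Pool.Agent.H54.PM
open scoped symmDiff

namespace Pool.Agent.H86.PMF

variable {E G : Type} [NormedAddCommGroup E] [NormedSpace ℝ E] [NormedAddCommGroup G]
  [NormedSpace ℝ G]

lemma tr_Un_image (L : E →L[ℝ] G) (F : Finset (Finset E)) : Un (imf L F) = L '' Un F := by
  classical
  ext y
  simp only [Un, imf, Set.mem_iUnion, Set.mem_image, Finset.mem_image]
  constructor
  · rintro ⟨A', ⟨A, hA, rfl⟩, hy⟩
    rw [tr_body_image] at hy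
    obtain ⟨x, hx, rfl⟩ := hy
    exact ⟨x, ⟨A, hA, hx⟩, rfl⟩
  · rintro ⟨x, ⟨A, hA, hx⟩, rfl⟩
    refine ⟨A.image L, ⟨A, hA, rfl⟩, ?_⟩
    rw [tr_body_image]
    exact ⟨x, hx, rfl⟩

lemma tr_Un_inj (L : E →L[ℝ] G) (F : Finset (Finset E)) (h : Inj2 L F) : Set.InjOn L (Un F) := by
  intro x hx y hy hxy
  simp only [Un, Set.mem_iUnion] at hx hy
  obtain ⟨A, hA, hxA⟩ := hx
  obtain ⟨B, hB, hyB⟩ := hy
  exact tr_union L F h A B hA hB (Or.inl hxA) (Or.inr hyB) hxy

lemma tr_Un_compact (F : Finset (Finset E)) : IsCompact (Un F) := by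
  apply Finset.isCompact_biUnion
  intro A _
  exact (Finset.finite_toSet A).isCompact_convexHull ℝ

theorem pf_TR3 (_h : T_TR1) : T_TR3 := by
  classical
  intro E G _ _ _ _ _ L F hL
  have : CompactSpace (Un F) := isCompact_iff_compactSpace.1 (tr_Un_compact F)
  have hinj := tr_Un_inj L F hL
  rw [tr_Un_image]
  let e : Un F ≃ (L '' Un F : Set G) := Equiv.Set.imageOfInjOn L (Un F) hinj
  have hc : Continuous e := by
    apply Continuous.subtype_mk
    exact L.continuous.comp continuous_subtype_val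
  exact ⟨(Continuous.homeoOfEquivCompactToT2 hc).symm⟩

end Pool.Agent.H86.PMF
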