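import Pool.Agent.H86.PMF.TR3

set_option autoImplicit false

open Pool.Agent.H54.PM
open scoped symmDiff

namespace Pool.Agent.H86.PMF

variable {E G : Type} [NormedAddCommGroup E] [NormedSpace ℝ E] [NormedAddCommGroup G]
  [NormedSpace ℝ G]

lemma tr_mem_Un (F : Finset (Finset E)) (A : Finset E) (hA : A ∈ F) (a : E) (ha : a ∈ A) :
    a ∈ Un F := by
  simp only [Un, Set.mem_iUnion]
  exact ⟨A, hA, tr_subset_body A ha⟩

open Classical in
lemma tr_image_inj (L : E →L[ℝ] G) (F : Finset (Finset E)) (h : Inj2 L F) (A B : Finset E)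
    (hA : A ∈ F) (hB : B ∈ F) (he : A.image L = B.image L) : A = B := by
  have hinj := tr_Un_inj L F h
  have key : ∀ A ∈ F, ∀ B ∈ F, A.image L = B.image L → A ⊆ B := by
    intro A hA B hB he a ha
    have h1 : L a ∈ B.image L := he ▸ Finset.mem_image_of_mem _ ha
    obtain ⟨b, hb, hba⟩ := Finset.mem_image.1 h1
    have : b = a := hinj (tr_mem_Un F B hB b hb) (tr_mem_Un F A hA a ha) hba
    rwa [← this]
  exact Finset.Subset.antisymm (key A hA B hB he) (key B hB A hA he.symm)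

theorem pf_TR4 (h : T_TR1) : T_TR4 := by
  classical
  intro E G _ _ _ _ _ L F hL
  have hT := fun (A : Finset E) (hA : A ∈ F) => (h E G L A (tr_one L F hL A hA)).2.2
  have hinj := tr_Un_inj L F hL
  have hinj' : ∀ A ∈ F, ∀ B ∈ F, ∀ a ∈ A, ∀ b ∈ B, L a = L b → a = b :=
    fun A hA B hB a ha b hb he => hinj (tr_mem_Un F A hA a ha) (tr_mem_Un F B hB b hb) he
  have hver : ver (imf L F) = L '' ver F := by
    ext y
    simp only [ver, imf, Set.mem_ofPred_eq, Finset.mem_image, Set.mem_image]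
    constructor
    · rintro ⟨A', ⟨A, hA, rfl⟩, hy⟩
      obtain ⟨x, hx, rfl⟩ := Finset.mem_image.1 hy
      exact ⟨x, ⟨A, hA, hx⟩, rfl⟩
    · rintro ⟨x, ⟨A, hA, hx⟩, rfl⟩
      exact ⟨A.image L, ⟨A, hA, rfl⟩, Finset.mem_image_of_mem _ hx⟩
  have hedg : edg (imf L F) = Sym2.map L '' edg F := by
    ext e
    simp only [edg, imf, Set.mem_ofPred_eq, Finset.mem_image, Set.mem_image]
    constructor
    · rintro ⟨A', ⟨A, hA, rfl⟩, x, y, hxy, rfl⟩
      obtain ⟨u, hu, rfl⟩ := Finset.mem_image.1 hxy.1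
      obtain ⟨v, hv, rfl⟩ := Finset.mem_image.1 hxy.2.1
      exact ⟨s(u, v), ⟨A, hA, u, v, (hT A hA u hu v hv).1 hxy, rfl⟩, rfl⟩
    · rintro ⟨e, ⟨A, hA, u, v, huv, rfl⟩, rfl⟩
      exact ⟨A.image L, ⟨A, hA, rfl⟩, L u, L v, (hT A hA u huv.1 v huv.2.1).2 huv, rfl⟩
  have hcard : (imf L F).card = F.card := by
    unfold imf
    apply Finset.card_image_of_injOn
    intro A hA B hB he
    exact tr_image_inj L F hL A B hA hB he
  have hvc : (ver (imf L F)).ncard = (ver F).ncard := by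
    rw [hver]
    apply Set.InjOn.ncard_image
    rintro a ⟨A, hA, ha⟩ b ⟨B, hB, hb⟩ he
    exact hinj' A hA B hB a ha b hb he
  have hec : (edg (imf L F)).ncard = (edg F).ncard := by
    rw [hedg]
    apply Set.InjOn.ncard_image
    rintro e ⟨A, hA, u, v, huv, rfl⟩ e' ⟨B, hB, x, y, hxy, rfl⟩ he
    simp only [Sym2.map_mk] at he
    rw [Sym2.eq_iff] at he ⊢
    rcases he with ⟨h1, h2⟩ | ⟨h1, h2⟩
    · left
      exact ⟨hinj' A hA B hB u huv.1 x hxy.1 h1, hinj' A hA B hB v huv.2.1 y hxy.2.1 h2⟩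
    · right
      exact ⟨hinj' A hA B hB u huv.1 y hxy.2.1 h1, hinj' A hA B hB v huv.2.1 x hxy.1 h2⟩
  refine ⟨?_, ?_, ?_⟩
  · rw [chi, chi, hvc, hec, hcard]
  · rintro ⟨D, hD1, hD2, hD3⟩
    refine ⟨fun A u v => D (A.image L) (L u) (L v), ?_, ?_, ?_⟩
    · intro A hA u v huv
      exact hD1 (A.image L) (Finset.mem_image_of_mem _ hA) _ _
        ((hT A hA u huv.1 v huv.2.1).2 huv)
    · intro A hA u v w huv hvw hne
      exact hD2 (A.image L) (Finset.mem_image_of_mem _ hA) _ _ _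
        ((hT A hA u huv.1 v huv.2.1).2 huv) ((hT A hA v hvw.1 w hvw.2.1).2 hvw)
        (fun he => hne (hinj' A hA A hA u huv.1 w hvw.2.1 he))
    · intro A hA B hB hne u v huv hvu
      exact hD3 (A.image L) (Finset.mem_image_of_mem _ hA) (B.image L)
        (Finset.mem_image_of_mem _ hB) (fun he => hne (tr_image_inj L F hL A B hA hB he)) _ _
        ((hT A hA u huv.1 v huv.2.1).2 huv) ((hT B hB u hvu.1 v hvu.2.1).2 hvu)
  · rintro ⟨D, hD1, hD2, hD3⟩
    set D' : Finset G → G → G → Prop := fun B x y => ∃ A ∈ F, ∃ u ∈ A, ∃ v ∈ A,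
      B = A.image L ∧ x = L u ∧ y = L v ∧ D A u v with hD'
    have key : ∀ A ∈ F, ∀ u ∈ A, ∀ v ∈ A, (D' (A.image L) (L u) (L v) ↔ D A u v) := by
      intro A hA u hu v hv
      constructor
      · rintro ⟨B, hB, x, hx, y, hy, hBA, h1, h2, h3⟩
        have e0 := tr_image_inj L F hL A B hA hB hBA
        subst e0
        have e1 := hinj' A hA A hA u hu x hx h1
        have e2 := hinj' A hA A hA v hv y hy h2
        rw [e1, e2]
        exact h3
      · intro h1
        exact ⟨A, hA, u, hu, v, hv, rfl, rfl, rfl, h1⟩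
    refine ⟨D', ?_, ?_, ?_⟩
    · intro A' hA' x y hxy
      obtain ⟨A, hA, rfl⟩ := Finset.mem_image.1 hA'
      obtain ⟨u, hu, rfl⟩ := Finset.mem_image.1 hxy.1
      obtain ⟨v, hv, rfl⟩ := Finset.mem_image.1 hxy.2.1
      rw [key A hA u hu v hv, key A hA v hv u hu]
      exact hD1 A hA u v ((hT A hA u hu v hv).1 hxy)
    · intro A' hA' x y z hxy hyz hne
      obtain ⟨A, hA, rfl⟩ := Finset.mem_image.1 hA'
      obtain ⟨u, hu, rfl⟩ := Finset.mem_image.1 hxy.1
      obtain ⟨v, hv, rfl⟩ := Finset.mem_image.1 hxy.2.1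
      obtain ⟨w, hw, rfl⟩ := Finset.mem_image.1 hyz.2.1
      rw [key A hA u hu v hv, key A hA v hv w hw]
      exact hD2 A hA u v w ((hT A hA u hu v hv).1 hxy) ((hT A hA v hv w hw).1 hyz)
        (fun he => hne (by rw [he]))
    · intro A' hA' B' hB' hne x y hxy hyx
      obtain ⟨A, hA, rfl⟩ := Finset.mem_image.1 hA'
      obtain ⟨B, hB, rfl⟩ := Finset.mem_image.1 hB'
      obtain ⟨u, hu, rfl⟩ := Finset.mem_image.1 hxy.1
      obtain ⟨v, hv, rfl⟩ := Finset.mem_image.1 hxy.2.1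
      obtain ⟨u', hu', e1⟩ := Finset.mem_image.1 hyx.1
      obtain ⟨v', hv', e2⟩ := Finset.mem_image.1 hyx.2.1
      have e3 := hinj' B hB A hA u' hu' u hu e1
      have e4 := hinj' B hB A hA v' hv' v hv e2
      subst e3
      subst e4
      rw [key A hA u' hu v' hv, key B hB v' hv' u' hu']
      exact hD3 A hA B hB (fun he => hne (by rw [he])) u' v' ((hT A hA u' hu v' hv).1 hxy)
        ((hT B hB u' hu' v' hv').1 hyx)

end Pool.Agent.H86.PMF
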